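import Mathlib

/-! The language of arithmetic, Robinson arithmetic and four classes of theories. -/

open FirstOrder FirstOrder.Language

namespace Pool.Agent.MP_352f7f_lc.H82

/-- Function symbols `0, 1, +, ×`. -/
inductive Fn : ℕ → Type
  | zero : Fn 0
  | one : Fn 0
  | add : Fn 2
  | mul : Fn 2

/-- The relation symbol `<`. -/
inductive Rl : ℕ → Type
  | lt : Rl 2

/-- The language `{0, 1, +, ×, <}`. -/
def LA : Language := ⟨Fn, Rl⟩

/-- Terms in `n` variables. -/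
abbrev Tm (n : ℕ) := LA.Term (Empty ⊕ Fin n)

/-- Formulas in `n` free variables. -/
abbrev Fm (n : ℕ) := LA.BoundedFormula Empty n

/-- The term `0`. -/
def t0 {n : ℕ} : Tm n := Term.func Fn.zero ![]
/-- The term `1`. -/
def t1 {n : ℕ} : Tm n := Term.func Fn.one ![]
/-- The term `s + t`. -/
def plus {n : ℕ} (s t : Tm n) : Tm n := Term.func Fn.add ![s, t]
/-- The term `s × t`. -/
def times {n : ℕ} (s t : Tm n) : Tm n := Term.func Fn.mul ![s, t]
/-- The formula `s < t`. -/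
def less {n : ℕ} (s t : Tm n) : Fm n := BoundedFormula.rel Rl.lt ![s, t]
/-- The numeral `0 + 1 + ... + 1`. -/
def num {n : ℕ} : ℕ → Tm n
  | 0 => t0
  | k + 1 => plus (num k) t1

/-- `0 + 1 = 1` -/
def q0 : LA.Sentence := plus t0 t1 =' t1
/-- `x + 1 ≠ 0` -/
def q1 : LA.Sentence := ∀' ∼(plus &0 t1 =' t0)
/-- `x + 1 = y + 1 → x = y` -/
def q2 : LA.Sentence := ∀' ∀' (plus &0 t1 =' plus &1 t1 ⟹ &0 =' &1)
/-- `x ≠ 0 → ∃ y, x = y + 1` -/
def q3 : LA.Sentence := ∀' (∼(&0 =' t0) ⟹ ∃' (&0 =' plus &1 t1))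
/-- `x + 0 = x` -/
def q4 : LA.Sentence := ∀' (plus &0 t0 =' &0)
/-- `x + (y + 1) = (x + y) + 1` -/
def q5 : LA.Sentence := ∀' ∀' (plus &0 (plus &1 t1) =' plus (plus &0 &1) t1)
/-- `x × 0 = 0` -/
def q6 : LA.Sentence := ∀' (times &0 t0 =' t0)
/-- `x × (y + 1) = x × y + x` -/
def q7 : LA.Sentence := ∀' ∀' (times &0 (plus &1 t1) =' plus (times &0 &1) &0)
/-- `x < y ↔ (∃ z, x + z = y) ∧ x ≠ y` -/
def q8 : LA.Sentence := ∀' ∀' (less &0 &1 ⇔ (∃' (plus &0 &2 =' &1) ⊓ ∼(&0 =' &1)))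
/-- `x < y ↔ (∃ z, z + x = y) ∧ x ≠ y` -/
def q9 : LA.Sentence := ∀' ∀' (less &0 &1 ⇔ (∃' (plus &2 &0 =' &1) ⊓ ∼(&0 =' &1)))
/-- `x < y ↔ ∃ z, x + (z + 1) = y` -/
def q10 : LA.Sentence := ∀' ∀' (less &0 &1 ⇔ ∃' (plus &0 (plus &2 t1) =' &1))
/-- `x < y ↔ ∃ z, (z + 1) + x = y` -/
def q11 : LA.Sentence := ∀' ∀' (less &0 &1 ⇔ ∃' (plus (plus &2 t1) &0 =' &1))

/-- Robinson arithmetic; the flag chooses the defining axioms for `<`. -/
def Q (strict : Bool) : LA.Theory :=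
  {q0, q1, q2, q3, q4, q5, q6, q7} ∪ if strict then {q8, q9} else {q10, q11}

/-- The bounded quantifier `∀ x < t, φ`, where the new variable `x` does not occur in `t`. -/
def ball {n : ℕ} (t : Tm n) (φ : Fm (n + 1)) : Fm n :=
  ∀' (less &(Fin.last n) (t.relabel (Sum.map id Fin.castSucc)) ⟹ φ)

/-- Bounded formulas. -/
inductive Delta0 : ∀ {n : ℕ}, Fm n → Prop
  | falsum {n : ℕ} : Delta0 (⊥ : Fm n)
  | atomic {n : ℕ} {φ : Fm n} : φ.IsAtomic → Delta0 φ
  | imp {n : ℕ} {φ ψ : Fm n} : Delta0 φ → Delta0 ψ → Delta0 (φ ⟹ ψ)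
  | ball {n : ℕ} (t : Tm n) {φ : Fm (n + 1)} : Delta0 φ → Delta0 (ball t φ)

/-- `Lev true k` is the class `Σ_k` and `Lev false k` is the class `Π_k`. -/
inductive Lev : Bool → ℕ → ∀ {n : ℕ}, Fm n → Prop
  | base (b : Bool) {n : ℕ} {φ : Fm n} : Delta0 φ → Lev b 0 φ
  | step (b : Bool) {k n : ℕ} {φ : Fm n} : Lev (!b) k φ → Lev b (k + 1) φ
  | ex {k n : ℕ} {φ : Fm (n + 1)} : Lev true (k + 1) φ → Lev true (k + 1) (∃' φ)
  | all {k n : ℕ} {φ : Fm (n + 1)} : Lev false (k + 1) φ → Lev false (k + 1) (∀' φ)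

/-- Consistent deductively closed theories containing `Q`. -/
def InTQ (strict : Bool) (T : LA.Theory) : Prop :=
  T.IsSatisfiable ∧ (∀ φ : LA.Sentence, T ⊨ᵇ φ → φ ∈ T) ∧ Q strict ⊆ T

/-- `T` is axiomatized by `Σ_k` sentences for some `k`. -/
def Restricted (T : LA.Theory) : Prop :=
  ∃ (k : ℕ) (A : LA.Theory), (∀ φ ∈ A, Lev true k φ) ∧ ∀ φ : LA.Sentence, A ⊨ᵇ φ ↔ φ ∈ T

/-- No completion of `T` is of restricted complexity. -/
def NRestr (T : LA.Theory) : Prop :=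
  ∀ T' : LA.Theory, T ⊆ T' → T'.IsMaximal → ¬ Restricted T'

/-- `T` proves MRDP. -/
def MRDP (T : LA.Theory) : Prop :=
  ∀ (n : ℕ) (φ : Fm n), Lev true 1 φ → ∃ ψ : Fm n, ψ.IsExistential ∧ T ⊨ᵇ (φ ⇔ ψ)

/-- A consequence of having a definable truth predicate for bounded formulas: the uniform Tarski
biconditionals for bounded formulas in one variable, for some coding and some definable notion
`Asg (y, a)` of `y` being an assignment with value `a`. -/
def WeakTruth (T : LA.Theory) : Prop :=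
  ∃ (code : Fm 1 → ℕ) (Sat Asg : Fm 2), ∀ M : Theory.ModelType.{0, 0, 0} T,
    (∀ a : M, ∃ y : M, Asg.Realize default ![y, a]) ∧
    ∀ φ : Fm 1, Delta0 φ → ∀ y a : M, Asg.Realize default ![y, a] →
      (Sat.Realize default ![(num (code φ) : Tm 0).realize (Sum.elim default default), y] ↔
        φ.Realize default ![a])

/-- The structure on `ℕ` given by two constants, two operations and a relation. -/
@[reducible] def natStr (z o : ℕ) (a m : ℕ → ℕ → ℕ) (l : ℕ → ℕ → Prop) : LA.Structure ℕ where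
  funMap := fun {_} f v =>
    match f, v with
    | Fn.zero, _ => z
    | Fn.one, _ => o
    | Fn.add, v => a (v 0) (v 1)
    | Fn.mul, v => m (v 0) (v 1)
  RelMap := fun {_} r v =>
    match r, v with
    | Rl.lt, v => l (v 0) (v 1)

/-- Every recursive model of `T` is isomorphic to the standard model. -/
def NRec (T : LA.Theory) : Prop :=
  ∀ (z o : ℕ) (a m : ℕ → ℕ → ℕ) (l : ℕ → ℕ → Prop), Computable₂ a → Computable₂ m →
    ComputablePred (fun p : ℕ × ℕ => l p.1 p.2) → @Theory.Model LA ℕ (natStr z o a m l) T →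
    Nonempty (@Language.Equiv LA ℕ ℕ (natStr z o a m l) (natStr 0 1 (· + ·) (· * ·) (· < ·)))

end Pool.Agent.MP_352f7f_lc.H82
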