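import Pool.Agent.MP_352f7f_lc.H82.Trees

/-! The first theory. -/

open FirstOrder FirstOrder.Language Classical

namespace Pool.Agent.MP_352f7f_lc.H82

section general

variable {G : Type} [PartialOrder G] {lab : G → ℕ} {st : Bool}

lemma mu_zero_iff {y : M lab st} {c : ℕ} (hc : c ≠ 0) :
    mu (z0 (M lab st)) y = M.inl c ↔ ∃ h, y = M.inr {h} ∧ lab h = c := by
  rcases y with b | t
  · simp [mu_eq, z0_eq, mmul, hc.symm]
  · simp only [mu_eq, z0_eq, mmul, if_true, M.inl.injEq, M.inr.injEq]
    constructor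
    · intro e
      obtain ⟨g, rfl⟩ := lb_ne (e ▸ hc)
      exact ⟨g, rfl, by rwa [lb_single] at e⟩
    · rintro ⟨g, rfl, e⟩
      rwa [lb_single]

lemma le_of_lt_single {g h : G} (H : lt (M.inr {g} : M lab st) (M.inr {h})) : g ≤ h := by
  rcases ((lt_eq _ _).1 H).1 with e | ⟨-, e⟩
  · exact (Finset.singleton_injective e).le
  · simpa using e

lemma lt_single {g h : G} (H : g ≤ h) (hne : g ≠ h) : lt (M.inr {g} : M lab st) (M.inr {h}) :=
  (lt_eq _ _).2 ⟨Or.inr ⟨by simp, by simpa using H⟩, fun _ => by simpa using hne⟩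

end general

lemma cd_ne (n d : ℕ) (u : Bool) : cd n d u ≠ 0 ∧ cd n d u ≠ 1 := by
  simp only [cd]; omega

variable {ρ : ℕ → Bool} {st : Bool}

lemma tlab_one {g : Node} (hl : g.l.length = g.t.1) : tlab ρ g = 1 ↔ ty ρ g.t g.l = true := by
  simp only [tlab, hl, true_and]
  split_ifs with c
  · simp [c]
  · simp [c, (cd_ne _ _ _).2]

lemma tlab_cd {g : Node} {n d : ℕ} {u : Bool} (h : tlab ρ g = cd n d u) :
    g.t.1 = n ∧ g.l.length = d ∧ g.t.2.isNone = u := by
  simp only [tlab] at h
  split_ifs at h with c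
  · exact absurd h.symm (cd_ne _ _ _).2
  · exact cd_inj h

lemma child_iff {g : Node} {n j : ℕ} {u : Bool} (hn : g.t.1 = n) (hu : g.t.2.isNone = u)
    (hl : g.l.length + (j + 1) = n) (P : Node → Prop)
    (hP : ∀ h : Node, h.t = g.t → h.l.length + j = n → (P h ↔ ty ρ h.t h.l = true)) :
    (¬ ∀ h : Node, anc g h → g ≠ h → tlab ρ h = cd n (n - j) u → P h) ↔
      ty ρ g.t g.l = true := by
  constructor
  · intro H
    by_contra c
    refine H fun h ha _ hc => ?_
    have h1 := (tlab_cd hc).2.1
    rw [hP h ha.1.symm (by omega)]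
    obtain ⟨w, hw⟩ := ha.2
    have h2 := congrArg List.length hw
    rw [List.length_append] at h2
    obtain ⟨x, rfl⟩ := List.length_eq_one_iff.1 (show w.length = 1 by omega)
    rw [← hw, ← ha.1]
    simp [ty, Bool.eq_false_iff.2 c]
  · intro H c
    have h1 : ty ρ g.t ((false, 0) :: g.l) = false := by simp [ty, H]
    have := c ⟨g.t, (false, 0) :: g.l⟩ ⟨rfl, List.suffix_cons _ _⟩
      (fun e => by simpa using congrArg (fun a => a.l.length) e)
      (by simp only [tlab, h1, hn, hu, List.length_cons]; simp; congr 1; omega)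
    rw [hP ⟨g.t, (false, 0) :: g.l⟩ rfl (by simp only [List.length_cons]; omega), h1] at this
    exact absurd this (by simp)

/-- the formula `0 · x = c` about the last variable -/
def hasLab (m c : ℕ) : Fm (m + 1) := times t0 &(Fin.last m) =' num c

lemma real_hasLab {G : Type} [PartialOrder G] {lab : G → ℕ} {m c : ℕ} (hc : c ≠ 0)
    (v : Fin (m + 1) → M lab st) :
    (hasLab m c).Realize default v ↔ ∃ h, v (Fin.last m) = M.inr {h} ∧ lab h = c := by
  simp [hasLab, real_num, mu_zero_iff hc]

/-- the type formula for the upward trees -/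
def phiU (n : ℕ) : ℕ → ∀ m : ℕ, Fm (m + 1)
  | 0, m => hasLab m 1
  | j + 1, m => ∼(∀' (less &(Fin.castSucc (Fin.last m)) &(Fin.last (m + 1)) ⟹
      (hasLab (m + 1) (cd n (n - j) true) ⟹ phiU n j (m + 1))))

/-- the type formula for the downward trees -/
def phiD (n : ℕ) : ℕ → ∀ m : ℕ, Fm (m + 1)
  | 0, m => hasLab m 1
  | j + 1, m => ∼(ball &(Fin.last m) (hasLab (m + 1) (cd n (n - j) false) ⟹ phiD n j (m + 1)))

lemma delta_phiD (n j m : ℕ) : Delta0 (phiD n j m) := by
  induction j generalizing m with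
  | zero => exact .atomic (.equal _ _)
  | succ j ih => exact .imp (.ball _ (.imp (.atomic (.equal _ _)) (ih _))) .falsum

lemma real_phiU (n j m : ℕ) (v : Fin (m + 1) → M (tlab ρ) st) (g : Node)
    (hv : v (Fin.last m) = M.inr {g}) (hg : g.t = (n, none)) (hl : g.l.length + j = n) :
    (phiU n j m).Realize default v ↔ ty ρ g.t g.l = true := by
  induction j generalizing m g with
  | zero =>
    rw [phiU, real_hasLab one_ne_zero, hv, ← tlab_one (by rw [hg]; exact hl)]
    simp
  | succ j ih =>
    rw [← child_iff (u := true) (by rw [hg]) (by rw [hg]; rfl) hl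
      (fun h => (phiU n j (m + 1)).Realize default (Fin.snoc v (M.inr {h})))
      (fun h h1 h2 => ih (m + 1) _ h (by simp) (h1.trans hg) h2)]
    simp only [phiU, BoundedFormula.realize_not, BoundedFormula.realize_all,
      BoundedFormula.realize_imp, real_less, real_hasLab (cd_ne _ _ _).1]
    simp only [Function.comp, Term.realize_var, Sum.elim_inr, Fin.snoc_castSucc, Fin.snoc_last, hv]
    refine not_congr ⟨fun H h h1 h2 h3 => H _ (lt_single ?_ h2) ⟨h, rfl, h3⟩, ?_⟩
    · rw [le_def, if_pos (by rw [hg])]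
      exact h1
    · rintro H y h1 ⟨h, rfl, h3⟩
      have h2 := le_of_lt_single h1
      rw [le_def, if_pos (by rw [hg])] at h2
      refine H h h2 ?_ h3
      rintro rfl
      have := (tlab_cd h3).2.1
      omega

lemma real_phiD (n j m : ℕ) (σ : Bool) (v : Fin (m + 1) → M (tlab ρ) st) (g : Node)
    (hv : v (Fin.last m) = M.inr {g}) (hg : g.t = (n, some σ)) (hl : g.l.length + j = n) :
    (phiD n j m).Realize default v ↔ ty ρ g.t g.l = true := by
  induction j generalizing m g with
  | zero =>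
    rw [phiD, real_hasLab one_ne_zero, hv, ← tlab_one (by rw [hg]; exact hl)]
    simp
  | succ j ih =>
    rw [← child_iff (u := false) (by rw [hg]) (by rw [hg]; rfl) hl
      (fun h => (phiD n j (m + 1)).Realize default (Fin.snoc v (M.inr {h})))
      (fun h h1 h2 => ih (m + 1) _ h (by simp) (h1.trans hg) h2)]
    simp only [phiD, BoundedFormula.realize_not, real_ball,
      BoundedFormula.realize_imp, real_hasLab (cd_ne _ _ _).1]
    simp only [Function.comp, Term.realize_var, Sum.elim_inr, Fin.snoc_last, hv]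
    refine not_congr ⟨fun H h h1 h2 h3 => H _ (lt_single ?_ h2.symm) ⟨h, rfl, h3⟩, ?_⟩
    · rw [le_def, if_neg (by rw [← h1.1, hg]; simp)]
      exact h1
    · rintro H y h1 ⟨h, rfl, h3⟩
      have h2 := le_of_lt_single h1
      have h4 := (tlab_cd h3).2.2
      rw [le_def, if_neg (fun e => by simp [e] at h4)] at h2
      refine H h h2 ?_ h3
      rintro rfl
      have := (tlab_cd h3).2.1
      omega

/-- the sentence describing the root of the `n`-th upward tree -/
def theta (n : ℕ) : LA.Sentence := ∃' (hasLab 0 (cd n 0 true) ⊓ phiU n n 0)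

lemma real_theta {n : ℕ} (hn : n ≠ 0) : M (tlab ρ) st ⊨ theta n ↔ ρ n = true := by
  simp only [theta, Sentence.Realize, Formula.Realize, BoundedFormula.realize_ex,
    BoundedFormula.realize_inf, real_hasLab (cd_ne _ _ _).1, Fin.snoc_last]
  constructor
  · rintro ⟨x, ⟨h, rfl, h1⟩, h2⟩
    obtain ⟨h3, h4, h5⟩ := tlab_cd h1
    have h6 : h.t = (n, none) := Prod.ext h3 (by simpa using h5)
    rw [real_phiU n n 0 _ h (Fin.snoc_last _ _) h6 (by omega), List.length_eq_zero_iff.1 h4, h6] at h2
    exact h2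
  · intro H
    refine ⟨_, ⟨⟨(n, none), []⟩, rfl, by simp [tlab, hn.symm]⟩, ?_⟩
    rw [real_phiU n n 0 _ ⟨(n, none), []⟩ (Fin.snoc_last _ _) rfl (by simp)]
    exact H

lemma inTQ_complete {st : Bool} (N : Type) [LA.Structure N] [Nonempty N] (h : N ⊨ Q st) :
    InTQ st (LA.completeTheory N) :=
  ⟨completeTheory.isSatisfiable LA N, fun _ hφ => hφ.realize_sentence N,
    Theory.completeTheory.subset⟩

lemma eq_complete {N : Type} [LA.Structure N] [Nonempty N] {T : LA.Theory}
    (h : LA.completeTheory N ⊆ T) (hT : T.IsMaximal) : T = LA.completeTheory N := by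
  refine Set.Subset.antisymm (fun φ hφ => ?_) h
  rcases completeTheory.mem_or_not_mem LA N φ with e | e
  · exact e
  · obtain ⟨K⟩ := hT.1
    have h1 := Theory.realize_sentence_of_mem (M := K) T hφ
    have h2 := Theory.realize_sentence_of_mem (M := K) T (h e)
    exact absurd h1 (by simpa using h2)

/-- the first model -/
abbrev M1 (st : Bool) := M (tlab fun _ => false) st

theorem nrestr_M1 : NRestr (LA.completeTheory (M1 st)) := by
  rintro T hT hm ⟨k, A, h1, h2⟩
  obtain rfl := eq_complete hT hm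
  have hγ : Adm (Equiv.refl I) := fun i => ⟨rfl, Iff.rfl⟩
  have hs : Sys (fun _ => false) (fun n => decide (k < n)) (Equiv.refl I) {i | i.2 ≠ none} k
      (base (Equiv.refl I) {i | i.2 ≠ none}) := by
    refine sys_base ?_ ?_
    · rintro ⟨n, _ | σ⟩ hi
      · exact absurd rfl hi
      · exact ⟨rfl, rfl⟩
    · rintro ⟨n, _ | σ⟩
      · by_cases c : k < n
        · exact Or.inr c
        · exact Or.inl (by simp [rt, c])
      · exact Or.inl rfl
  have : M (tlab fun n => decide (k < n)) st ⊨ A := ⟨fun φ hφ => by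
    have h3 : M1 st ⊨ φ := (h2 φ).1 (Theory.models_sentence_of_mem hφ)
    exact ((inv_lev (bf hγ) (fun p hp => hp.down hγ) (h1 φ hφ)).1 _ hs default default
      (fun i => i.elim0)).1 h3⟩
  have h4 : M1 st ⊨ (theta (k + 1)).not := by
    rw [Sentence.realize_not, real_theta (by omega)]
    simp
  have h5 := ((h2 _).2 (mem_completeTheory.2 h4)).realize_sentence (M (tlab fun n => decide (k < n)) st)
  rw [Sentence.realize_not, real_theta (by omega)] at h5
  simp at h5

lemma adm_swap (n : ℕ) : Adm (Equiv.swap (n, some true) (n, some false)) := by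
  intro i
  rw [Equiv.swap_apply_def]
  split_ifs with h1 h2
  · simp [h1]
  · simp [h2]
  · simp

lemma sys_swap {k n : ℕ} (h : k < n) : Sys ρ ρ (Equiv.swap (n, some true) (n, some false)) ∅ k
    (base (Equiv.swap (n, some true) (n, some false)) ∅) := by
  refine sys_base (fun i hi => hi.elim) fun i => ?_
  rw [Equiv.swap_apply_def]
  split_ifs with h1 h2
  · exact Or.inr (by rwa [h1])
  · exact Or.inr (by rwa [h2])
  · exact Or.inl rfl

lemma base_swap (n : ℕ) : R (lab := tlab ρ) (lab' := tlab ρ) (st := st)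
    (base (Equiv.swap (n, some true) (n, some false)) ∅) (M.inr {⟨(n, some true), []⟩})
    (M.inr {⟨(n, some false), []⟩}) :=
  LS.single (Or.inl ⟨rfl, by simp⟩)

lemma phiD_root (n : ℕ) (σ : Bool) :
    (phiD n n 0).Realize default ![(M.inr {⟨(n, some σ), []⟩} : M (tlab ρ) st)] ↔ σ = true :=
  real_phiD n n 0 σ _ ⟨(n, some σ), []⟩ rfl rfl (by simp)

theorem not_mrdp_M1 : ¬ MRDP (LA.completeTheory (M1 st)) := by
  intro H
  obtain ⟨ψ, h1, h2⟩ := H 1 (phiD 2 2 0) (.step true (.base _ (delta_phiD 2 2 0)))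
  have h3 : ∀ v : Fin 1 → M1 st, (phiD 2 2 0).Realize default v ↔ ψ.Realize default v := fun v => by
    simpa using h2.realize_boundedFormula (M1 st) (v := default) (xs := v)
  have h4 := (strong_ex (st := st) (bf (ρ := fun _ => false) (ρ' := fun _ => false) (F := ∅)
    (adm_swap 2)) h1).inv _ (sys_swap (by omega)) ![M.inr {⟨(2, some true), []⟩}]
    ![M.inr {⟨(2, some false), []⟩}] (fun i => by fin_cases i; exact base_swap 2)
  simp only [← h3, phiD_root] at h4
  simp at h4

theorem not_truth_M1 : ¬ WeakTruth (LA.completeTheory (M1 st)) := by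
  rintro ⟨code, Sat, Asg, H⟩
  obtain ⟨h1, h2⟩ := H (Theory.ModelType.of _ (M1 st))
  set k := max (qr Sat) (qr Asg)
  have B := bf (ρ := fun _ => false) (ρ' := fun _ => false) (F := ∅) (adm_swap (k + 2))
  obtain ⟨y, hy⟩ := h1 (M.inr {⟨(k + 2, some true), []⟩} : M1 st)
  obtain ⟨q, q1, q2, q3⟩ := B.forth k _ (sys_swap (by omega)) (supp (y : M1 st))
  obtain ⟨y', hy'⟩ := R.total (lab' := tlab fun _ => false) (y : M1 st) q3
  have a0 := inv_rank (st := st) B Asg (le_max_right _ _) q q2
    ![y, M.inr {(⟨(k + 2, some true), []⟩ : Node)}] ![y', M.inr {(⟨(k + 2, some false), []⟩ : Node)}]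
    (fun i => by fin_cases i; exacts [hy', (base_swap _).mono q1])
  have a1 := a0.1 hy
  have a2 := inv_rank (st := st) B Sat (le_max_left _ _) q q2
    ![M.inl (code (phiD (k + 2) (k + 2) 0)), y] ![M.inl (code (phiD (k + 2) (k + 2) 0)), y']
    (fun i => by fin_cases i; exacts [rfl, hy'])
  have b1 := h2 _ (delta_phiD (k + 2) (k + 2) 0) _ _ hy
  have b2 := h2 _ (delta_phiD (k + 2) (k + 2) 0) y' _ a1
  have c := real_num (lab := tlab fun _ => false) (st := st) (n := 0)
    (code (phiD (k + 2) (k + 2) 0)) (Sum.elim default default)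
  have d1 := phiD_root (ρ := fun _ => false) (st := st) (k + 2) true
  have d2 := phiD_root (ρ := fun _ => false) (st := st) (k + 2) false
  erw [c] at b1 b2
  exact absurd (d2.1 (b2.1 (a2.1 (b1.2 (d1.2 rfl))))) (by simp)

end Pool.Agent.MP_352f7f_lc.H82
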