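import Pool.Agent.MP_352f7f_lc.H82.Model

/-! Back and forth systems between the models. -/

open FirstOrder FirstOrder.Language Classical

namespace Pool.Agent.MP_352f7f_lc.H82

variable {G : Type} [PartialOrder G]

/-- partial isomorphisms of labelled orders -/
structure PIso (lab lab' : G → ℕ) (p : G → G → Prop) : Prop where
  le : ∀ {a a' b b'}, p a a' → p b b' → (a ≤ b ↔ a' ≤ b')
  lab : ∀ {a a'}, p a a' → lab a = lab' a'

variable {lab lab' : G → ℕ} {st : Bool} {p q : G → G → Prop}

lemma PIso.eq (h : PIso lab lab' p) {a a' b b' : G} (ha : p a a') (hb : p b b') :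
    a = b ↔ a' = b' := by
  rw [le_antisymm_iff, le_antisymm_iff, h.le ha hb, h.le hb ha]

lemma PIso.lt (h : PIso lab lab' p) {a a' b b' : G} (ha : p a a') (hb : p b b') :
    a < b ↔ a' < b' := by
  rw [lt_iff_le_not_ge, lt_iff_le_not_ge, h.le ha hb, h.le hb ha]

lemma PIso.symm (h : PIso lab lab' p) : PIso lab' lab (flip p) :=
  ⟨fun ha hb => (h.le ha hb).symm, fun ha => (h.lab ha).symm⟩

/-- lifting to finite sets -/
def LS (p : G → G → Prop) (s s' : Finset G) : Prop :=
  (∀ a ∈ s, ∃ a' ∈ s', p a a') ∧ ∀ a' ∈ s', ∃ a ∈ s, p a a'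

omit [PartialOrder G] in
lemma LS.symm {s s' : Finset G} (h : LS p s s') : LS (flip p) s' s := ⟨h.2, h.1⟩

lemma LS.mem (h : PIso lab lab' p) {s s' : Finset G} (hs : LS p s s') {a a' : G} (ha : p a a') :
    a ∈ s ↔ a' ∈ s' := by
  constructor
  · intro m
    obtain ⟨b, hb, hp⟩ := hs.1 a m
    rwa [(h.eq ha hp).1 rfl]
  · intro m
    obtain ⟨b, hb, hp⟩ := hs.2 a' m
    rwa [(h.eq ha hp).2 rfl]

lemma LS.eq_of (h : PIso lab lab' p) {s s' t' : Finset G} (hs : LS p s s') (ht : LS p s t') :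
    s' = t' := by
  ext a'
  constructor
  · intro m
    obtain ⟨a, ha, hp⟩ := hs.2 a' m
    exact (ht.mem h hp).1 ha
  · intro m
    obtain ⟨a, ha, hp⟩ := ht.2 a' m
    exact (hs.mem h hp).1 ha

lemma LS.eq (h : PIso lab lab' p) {s s' t t' : Finset G} (hs : LS p s s') (ht : LS p t t') :
    s = t ↔ s' = t' :=
  ⟨fun e => hs.eq_of h (e ▸ ht), fun e => hs.symm.eq_of h.symm (e ▸ ht.symm)⟩

omit [PartialOrder G] in
lemma LS.union {s s' t t' : Finset G} (hs : LS p s s') (ht : LS p t t') :
    LS p (s ∪ t) (s' ∪ t') := by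
  constructor
  · intro a ha
    rcases Finset.mem_union.1 ha with ha | ha
    · obtain ⟨b, hb, hp⟩ := hs.1 a ha
      exact ⟨b, Finset.mem_union_left _ hb, hp⟩
    · obtain ⟨b, hb, hp⟩ := ht.1 a ha
      exact ⟨b, Finset.mem_union_right _ hb, hp⟩
  · intro a ha
    rcases Finset.mem_union.1 ha with ha | ha
    · obtain ⟨b, hb, hp⟩ := hs.2 a ha
      exact ⟨b, Finset.mem_union_left _ hb, hp⟩
    · obtain ⟨b, hb, hp⟩ := ht.2 a ha
      exact ⟨b, Finset.mem_union_right _ hb, hp⟩

lemma LS.mx (h : PIso lab lab' p) {s s' : Finset G} (hs : LS p s s') : LS p (mx s) (mx s') := by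
  constructor
  · intro a ha
    obtain ⟨b, hb, hp⟩ := hs.1 a (mem_mx.1 ha).1
    refine ⟨b, mem_mx.2 ⟨hb, fun c' hc' hlt => ?_⟩, hp⟩
    obtain ⟨c, hc, hq⟩ := hs.2 c' hc'
    exact (mem_mx.1 ha).2 c hc ((h.lt hp hq).2 hlt)
  · intro a ha
    obtain ⟨b, hb, hp⟩ := hs.2 a (mem_mx.1 ha).1
    refine ⟨b, mem_mx.2 ⟨hb, fun c' hc' hlt => ?_⟩, hp⟩
    obtain ⟨c, hc, hq⟩ := hs.1 c' hc'
    exact (mem_mx.1 ha).2 c hc ((h.lt hp hq).1 hlt)

omit [PartialOrder G] in
lemma LS.single {a a' : G} (ha : p a a') : LS p {a} {a'} :=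
  ⟨fun b hb => ⟨a', by simp, by rwa [Finset.mem_singleton.1 hb]⟩,
    fun b hb => ⟨a, by simp, by rwa [Finset.mem_singleton.1 hb]⟩⟩

lemma LS.lb (h : PIso lab lab' p) {s s' : Finset G} (hs : LS p s s') : lb lab s = lb lab' s' := by
  by_cases c : ∃ g, s = {g}
  · obtain ⟨g, rfl⟩ := c
    obtain ⟨g', -, hp⟩ := hs.1 g (by simp)
    rw [hs.eq_of h (LS.single hp), lb_single, lb_single, h.lab hp]
  · have c' : ¬ ∃ g, s' = {g} := by
      rintro ⟨g', rfl⟩
      obtain ⟨g, -, hp⟩ := hs.2 g' (by simp)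
      exact c ⟨g, (hs.eq h (LS.single hp)).2 rfl⟩
    rw [H82.lb, H82.lb, dif_neg c, dif_neg c']

lemma LS.below_of (h : PIso lab lab' p) {s s' t t' : Finset G} (hs : LS p s s') (ht : LS p t t')
    (hb : below s t) : below s' t' := by
  rcases hb with e | ⟨h1, h2⟩
  · exact Or.inl ((hs.eq h ht).1 e)
  · refine Or.inr ⟨fun a' ha' b' hb' hlt => ?_, fun a' ha' => ?_⟩
    · obtain ⟨a, ha, hp⟩ := ht.2 a' ha'
      obtain ⟨b, hb, hq⟩ := ht.2 b' hb'
      exact h1 a ha b hb ((h.lt hp hq).2 hlt)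
    · obtain ⟨a, ha, hp⟩ := hs.2 a' ha'
      obtain ⟨b, hb, hle⟩ := h2 a ha
      obtain ⟨b', hb', hq⟩ := ht.1 b hb
      exact ⟨b', hb', (h.le hp hq).1 hle⟩

/-- lifting to the models -/
def R (p : G → G → Prop) : M lab st → M lab' st → Prop
  | .inl a, .inl b => a = b
  | .inr s, .inr t => LS p s t
  | _, _ => False

omit [PartialOrder G] in
lemma R.symm {x : M lab st} {x' : M lab' st} (h : R p x x') : R (flip p) x' x := by
  rcases x with a | s <;> rcases x' with b | t
  · exact Eq.symm h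
  · exact h
  · exact h
  · exact LS.symm h

omit [PartialOrder G] in
lemma R.mono (hpq : ∀ a a', p a a' → q a a') {x : M lab st} {x' : M lab' st} (h : R p x x') :
    R q x x' := by
  rcases x with a | s <;> rcases x' with b | t
  · exact h
  · exact h
  · exact h
  · exact ⟨fun a ha => (h.1 a ha).imp fun _ hb => ⟨hb.1, hpq _ _ hb.2⟩,
      fun a ha => (h.2 a ha).imp fun _ hb => ⟨hb.1, hpq _ _ hb.2⟩⟩

lemma R.eq (h : PIso lab lab' p) {x y : M lab st} {x' y' : M lab' st} (hx : R p x x')
    (hy : R p y y') : x = y ↔ x' = y' := by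
  rcases x with a | s <;> rcases x' with a' | s' <;> try exact hx.elim
  all_goals rcases y with b | t <;> rcases y' with b' | t' <;> try exact hy.elim
  · simp only [R] at hx hy; simp [hx, hy]
  · simp
  · simp
  · simpa using LS.eq h hx hy

lemma R.add (h : PIso lab lab' p) {x y : M lab st} {x' y' : M lab' st} (hx : R p x x')
    (hy : R p y y') : R p (madd x y) (madd x' y') := by
  rcases x with a | s <;> rcases x' with a' | s' <;> try exact hx.elim
  all_goals rcases y with b | t <;> rcases y' with b' | t' <;> try exact hy.elim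
  · simp only [R] at hx hy; simp [madd, R, hx, hy]
  · exact hy
  · exact hx
  · exact LS.mx h (LS.union hx hy)

lemma R.mul (h : PIso lab lab' p) {x y : M lab st} {x' y' : M lab' st} (hx : R p x x')
    (hy : R p y y') : R p (mmul x y) (mmul x' y') := by
  rcases x with a | s <;> rcases x' with a' | s' <;> try exact hx.elim
  all_goals rcases y with b | t <;> rcases y' with b' | t' <;> try exact hy.elim
  · simp only [R] at hx hy; simp [mmul, R, hx, hy]
  · obtain rfl : a = a' := hx
    simp only [mmul]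
    split_ifs
    · exact LS.lb h hy
    · exact hy
  · obtain rfl : b = b' := hy
    simp only [mmul]
    split_ifs
    · rfl
    · exact hx
    · exact LS.mx h hx
  · exact LS.mx h hx

lemma R.mlt (h : PIso lab lab' p) {x y : M lab st} {x' y' : M lab' st} (hx : R p x x')
    (hy : R p y y') : mlt x y ↔ mlt x' y' := by
  rcases x with a | s <;> rcases x' with a' | s' <;> try exact hx.elim
  all_goals rcases y with b | t <;> rcases y' with b' | t' <;> try exact hy.elim
  · simp only [R] at hx hy; simp [H82.mlt, hx, hy]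
  · rfl
  · rfl
  · exact ⟨LS.below_of h hx hy, LS.below_of h.symm (LS.symm hx) (LS.symm hy)⟩

lemma R.lt (h : PIso lab lab' p) {x y : M lab st} {x' y' : M lab' st} (hx : R p x x')
    (hy : R p y y') : lt x y ↔ lt x' y' := by
  rw [lt_eq, lt_eq, R.mlt h hx hy, Ne, Ne, R.eq h hx hy]

lemma R.term (h : PIso lab lab' p) {α : Type} {v : α → M lab st} {v' : α → M lab' st}
    (hv : ∀ i, R p (v i) (v' i)) (t : LA.Term α) : R p (t.realize v) (t.realize v') := by
  induction t with
  | var i => exact hv i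
  | func f ts ih =>
    cases f
    · rfl
    · rfl
    · exact R.add h (ih 0) (ih 1)
    · exact R.mul h (ih 0) (ih 1)

/-- support of an element -/
def supp : M lab st → Finset G
  | .inl _ => ∅
  | .inr s => s

omit [PartialOrder G] in
lemma R.total (x : M lab st) (hx : ∀ g ∈ supp x, ∃ g', p g g') : ∃ x' : M lab' st, R p x x' := by
  rcases x with a | s
  · exact ⟨.inl a, rfl⟩
  · choose! f hf using hx
    refine ⟨.inr (s.image f), fun a ha => ⟨f a, Finset.mem_image_of_mem _ ha, hf a ha⟩,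
      fun a' ha' => ?_⟩
    obtain ⟨a, ha, rfl⟩ := Finset.mem_image.1 ha'
    exact ⟨a, ha, hf a ha⟩

/-- related valuations -/
def RV {n : ℕ} (p : G → G → Prop) (v : Fin n → M lab st) (v' : Fin n → M lab' st) : Prop :=
  ∀ i, R p (v i) (v' i)

omit [PartialOrder G] in
lemma RV.snoc {n : ℕ} {v : Fin n → M lab st} {v' : Fin n → M lab' st} (hv : RV p v v')
    {x : M lab st} {x' : M lab' st} (hx : R p x x') :
    RV p (Fin.snoc v x : Fin (n + 1) → _) (Fin.snoc v' x' : Fin (n + 1) → _) := by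
  intro i
  induction i using Fin.lastCases with
  | last => simpa using hx
  | cast i => simpa using hv i

lemma RV.term (h : PIso lab lab' p) {n : ℕ} {v : Fin n → M lab st} {v' : Fin n → M lab' st}
    (hv : RV p v v') (t : Tm n) :
    R p (t.realize (Sum.elim default v)) (t.realize (Sum.elim default v')) :=
  R.term h (fun i => by rcases i with i | i; exacts [i.elim, hv i]) t

lemma RV.atomic (h : PIso lab lab' p) {n : ℕ} {v : Fin n → M lab st} {v' : Fin n → M lab' st}
    (hv : RV p v v') {φ : Fm n} (hφ : φ.IsAtomic) : φ.Realize default v ↔ φ.Realize default v' := by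
  cases hφ with
  | equal s t => simpa using R.eq h (hv.term h s) (hv.term h t)
  | rel r ts =>
    cases r
    exact R.lt h (hv.term h (ts 0)) (hv.term h (ts 1))

lemma RV.qf (h : PIso lab lab' p) {n : ℕ} {v : Fin n → M lab st} {v' : Fin n → M lab' st}
    (hv : RV p v v') {φ : Fm n} (hφ : φ.IsQF) : φ.Realize default v ↔ φ.Realize default v' := by
  induction hφ with
  | falsum => rfl
  | of_isAtomic ha => exact hv.atomic h ha
  | imp _ _ i1 i2 => simp [i1, i2]

/-- domain and range are closed downwards -/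
def Down (p : G → G → Prop) : Prop :=
  (∀ a a' b, p a a' → b ≤ a → ∃ b', p b b') ∧ ∀ a a' b', p a a' → b' ≤ a' → ∃ b, p b b'

lemma total_of_lt (hd : ∀ a a' b, p a a' → b ≤ a → ∃ b', p b b') {x y : M lab st} {x' : M lab' st}
    (hx : R p x x') (hy : lt y x) : ∃ y' : M lab' st, R p y y' := by
  refine R.total y fun g hg => ?_
  have hy' := (lt_eq _ _).1 hy |>.1
  rcases y with b | t
  · simp [supp] at hg
  rcases x with a | s
  · exact hy'.elim
  rcases x' with a' | s'
  · exact hx.elim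
  rcases hy' with rfl | ⟨-, h2⟩
  · obtain ⟨g', -, hp⟩ := hx.1 g hg
    exact ⟨g', hp⟩
  · obtain ⟨k, hk, hle⟩ := h2 g hg
    obtain ⟨k', -, hp⟩ := hx.1 k hk
    exact hd k k' g hp hle

lemma RV.delta (h : PIso lab lab' p) (hd : Down p) {n : ℕ} {φ : Fm n} (hφ : Delta0 φ)
    {v : Fin n → M lab st} {v' : Fin n → M lab' st} (hv : RV p v v') :
    φ.Realize default v ↔ φ.Realize default v' := by
  induction hφ with
  | falsum => rfl
  | atomic ha => exact hv.atomic h ha
  | imp _ _ i1 i2 => simp [i1 hv, i2 hv]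
  | ball t _ ih =>
    simp only [real_ball]
    have ht := hv.term h t
    constructor
    · intro H y' hy'
      obtain ⟨y, hy⟩ := total_of_lt (p := flip p) (fun a a' b h1 h2 => hd.2 a' a b h1 h2)
        ht.symm hy'
      have hy2 : R p y y' := hy.symm
      exact (ih (hv.snoc hy2)).1 (H y ((R.lt h hy2 ht).2 hy'))
    · intro H y hy
      obtain ⟨y', hy'⟩ := total_of_lt (lab' := lab') hd.1 ht hy
      exact (ih (hv.snoc hy')).2 (H y' ((R.lt h hy' ht).1 hy))

/-- back and forth systems -/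
structure BF (lab lab' : G → ℕ) (S : ℕ → (G → G → Prop) → Prop) : Prop where
  iso : ∀ k p, S k p → PIso lab lab' p
  mono : ∀ k p, S (k + 1) p → S k p
  forth : ∀ k p, S (k + 1) p → ∀ D : Finset G,
    ∃ q, (∀ a a', p a a' → q a a') ∧ S k q ∧ ∀ g ∈ D, ∃ g', q g g'
  back : ∀ k p, S (k + 1) p → ∀ D : Finset G,
    ∃ q, (∀ a a', p a a' → q a a') ∧ S k q ∧ ∀ g' ∈ D, ∃ g, q g g'

variable {S : ℕ → (G → G → Prop) → Prop} {n k : ℕ}

/-- invariance at level `k` -/
def Inv (S : ℕ → (G → G → Prop) → Prop) (k : ℕ) (A : (Fin n → M lab st) → Prop)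
    (A' : (Fin n → M lab' st) → Prop) : Prop :=
  ∀ p, S k p → ∀ v v', RV p v v' → (A v ↔ A' v')

/-- existential transfer -/
def Strong (S : ℕ → (G → G → Prop) → Prop) (k : ℕ) (A : (Fin n → M lab st) → Prop)
    (A' : (Fin n → M lab' st) → Prop) : Prop :=
  ∀ p, S (k + 1) p →
    (∀ v, A v → ∃ q, (∀ a a', p a a' → q a a') ∧ PIso lab lab' q ∧ ∃ v', RV q v v' ∧ A' v') ∧
    (∀ v', A' v' → ∃ q, (∀ a a', p a a' → q a a') ∧ PIso lab lab' q ∧ ∃ v, RV q v v' ∧ A v)

variable {A : (Fin n → M lab st) → Prop} {A' : (Fin n → M lab' st) → Prop}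

lemma Inv.strong (B : BF lab lab' S) (h : Inv S k A A') : Strong S k A A' := by
  intro p hp
  constructor
  · intro v hv
    obtain ⟨q, h1, h2, h3⟩ := B.forth k p hp (Finset.univ.biUnion fun i => supp (v i))
    have : ∀ i, ∃ x' : M lab' st, R q (v i) x' := fun i => R.total _ fun g hg =>
      h3 g (Finset.mem_biUnion.2 ⟨i, Finset.mem_univ _, hg⟩)
    choose v' hv' using this
    exact ⟨q, h1, B.iso k q h2, v', hv', (h q h2 v v' hv').1 hv⟩
  · intro v' hv'
    obtain ⟨q, h1, h2, h3⟩ := B.back k p hp (Finset.univ.biUnion fun i => supp (v' i))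
    have : ∀ i, ∃ x : M lab st, R (flip q) (v' i) x := fun i => R.total _ fun g hg =>
      h3 g (Finset.mem_biUnion.2 ⟨i, Finset.mem_univ _, hg⟩)
    choose v hv using this
    have hv2 : RV q v v' := fun i => (hv i).symm
    exact ⟨q, h1, B.iso k q h2, v, hv2, (h q h2 v v' hv2).2 hv'⟩

lemma Strong.inv (h : Strong S k A A') : Inv S (k + 1) A A' := by
  intro p hp v v' hv
  constructor
  · intro H
    obtain ⟨q, h1, h2, w, h3, h4⟩ := (h p hp).1 v H
    have : w = v' := funext fun i => (R.eq h2 (h3 i) ((hv i).mono h1)).1 rfl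
    rwa [← this]
  · intro H
    obtain ⟨q, h1, h2, w, h3, h4⟩ := (h p hp).2 v' H
    have : w = v := funext fun i => (R.eq h2 (h3 i) ((hv i).mono h1)).2 rfl
    rwa [← this]

lemma Strong.ex {A : (Fin (n + 1) → M lab st) → Prop} {A' : (Fin (n + 1) → M lab' st) → Prop}
    (h : Strong S k A A') :
    Strong S k (fun v => ∃ x, A (Fin.snoc v x)) (fun v => ∃ x, A' (Fin.snoc v x)) := by
  intro p hp
  constructor
  · rintro v ⟨x, hx⟩
    obtain ⟨q, h1, h2, w, h3, h4⟩ := (h p hp).1 _ hx
    exact ⟨q, h1, h2, Fin.init w, fun i => by simpa [Fin.init] using h3 i.castSucc,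
      w (Fin.last n), by rwa [Fin.snoc_init_self]⟩
  · rintro v ⟨x, hx⟩
    obtain ⟨q, h1, h2, w, h3, h4⟩ := (h p hp).2 _ hx
    exact ⟨q, h1, h2, Fin.init w, fun i => by simpa [Fin.init] using h3 i.castSucc,
      w (Fin.last n), by rwa [Fin.snoc_init_self]⟩

omit [PartialOrder G] in
lemma Inv.not (h : Inv S k A A') : Inv S k (fun v => ¬ A v) (fun v => ¬ A' v) :=
  fun p hp v v' hv => not_congr (h p hp v v' hv)

omit [PartialOrder G] in
lemma Inv.of_not (h : Inv S k (fun v => ¬ A v) (fun v => ¬ A' v)) : Inv S k A A' :=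
  fun p hp v v' hv => not_iff_not.1 (h p hp v v' hv)

/-- quantifier rank -/
def qr : ∀ {n : ℕ}, Fm n → ℕ
  | _, .falsum => 0
  | _, .equal _ _ => 0
  | _, .rel _ _ => 0
  | _, .imp φ ψ => max (qr φ) (qr ψ)
  | _, .all φ => qr φ + 1

theorem inv_rank (B : BF lab lab' S) (φ : Fm n) (hk : qr φ ≤ k) :
    Inv S k (fun v : Fin n → M lab st => φ.Realize default v)
      (fun v : Fin n → M lab' st => φ.Realize default v) := by
  induction φ generalizing k with
  | falsum => exact fun _ _ _ _ _ => Iff.rfl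
  | equal s t => exact fun p hp v v' hv => hv.atomic (B.iso k p hp) (.equal s t)
  | rel r ts => exact fun p hp v v' hv => hv.atomic (B.iso k p hp) (.rel r ts)
  | imp φ ψ i1 i2 =>
    intro p hp v v' hv
    simp only [BoundedFormula.realize_imp]
    exact imp_congr (i1 (le_of_max_le_left hk) p hp v v' hv)
      (i2 (le_of_max_le_right hk) p hp v v' hv)
  | all φ ih =>
    obtain ⟨j, rfl⟩ : ∃ j, k = j + 1 := ⟨k - 1, by simp only [qr] at hk; omega⟩
    have := ((ih (k := j) (by simp only [qr] at hk; omega)).not.strong B).ex.inv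
    refine Inv.of_not ?_
    simpa using this

theorem strong_ex (B : BF lab lab' S) {φ : Fm n} (hφ : φ.IsExistential) :
    Strong S 0 (fun v : Fin n → M lab st => φ.Realize default v)
      (fun v : Fin n → M lab' st => φ.Realize default v) := by
  induction hφ with
  | of_isQF h => exact Inv.strong B fun p hp v v' hv => hv.qf (B.iso 0 p hp) h
  | ex _ ih => simpa using ih.ex

theorem inv_lev (B : BF lab lab' S) (hd : ∀ p, S 0 p → Down p) {b : Bool} {φ : Fm n}
    (hφ : Lev b k φ) :
    Inv S k (fun v : Fin n → M lab st => φ.Realize default v)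
      (fun v : Fin n → M lab' st => φ.Realize default v) ∧
    ∀ j, k = j + 1 → Strong S j (fun v : Fin n → M lab st => φ.Realize default v ↔ b = true)
      (fun v : Fin n → M lab' st => φ.Realize default v ↔ b = true) := by
  induction hφ with
  | base b h =>
    exact ⟨fun p hp v v' hv => hv.delta (B.iso 0 p hp) (hd p hp) h, fun j hj => by omega⟩
  | step b _ ih =>
    refine ⟨fun p hp => ih.1 p (B.mono _ p hp), fun j hj => ?_⟩
    obtain rfl := Nat.succ_injective hj
    refine Inv.strong B fun p hp v v' hv => ?_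
    have := ih.1 p hp v v' hv
    simp only at this ⊢
    rw [this]
  | ex _ ih =>
    have h1 := (ih.2 _ rfl).ex
    simp only [iff_true] at h1
    refine ⟨by simpa using h1.inv, fun j hj => ?_⟩
    obtain rfl := Nat.succ_injective hj
    simpa using h1
  | all _ ih =>
    have h1 := (ih.2 _ rfl).ex
    simp only [Bool.false_eq_true, iff_false] at h1
    refine ⟨Inv.of_not (by simpa using h1.inv), fun j hj => ?_⟩
    obtain rfl := Nat.succ_injective hj
    simpa using h1

end Pool.Agent.MP_352f7f_lc.H82
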