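import Pool.Agent.MP_352f7f_lc.H82.Defs

/-! Models of `Q` built from a labelled partial order. -/

open FirstOrder FirstOrder.Language Classical

namespace Pool.Agent.MP_352f7f_lc.H82

section general

variable {N : Type} [LA.Structure N]

/-- interpretation of `0` -/
def z0 (N : Type) [LA.Structure N] : N := Structure.funMap (L := LA) Fn.zero ![]
/-- interpretation of `1` -/
def z1 (N : Type) [LA.Structure N] : N := Structure.funMap (L := LA) Fn.one ![]
/-- interpretation of `+` -/
def ad (x y : N) : N := Structure.funMap (L := LA) Fn.add ![x, y]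
/-- interpretation of `×` -/
def mu (x y : N) : N := Structure.funMap (L := LA) Fn.mul ![x, y]
/-- interpretation of `<` -/
def lt (x y : N) : Prop := Structure.RelMap (L := LA) Rl.lt ![x, y]

variable {n : ℕ}

@[simp] lemma real_t0 (v : Empty ⊕ Fin n → N) : (t0 : Tm n).realize v = z0 N := by
  simp only [t0, Term.realize, z0]; congr 1; ext i; exact i.elim0
@[simp] lemma real_t1 (v : Empty ⊕ Fin n → N) : (t1 : Tm n).realize v = z1 N := by
  simp only [t1, Term.realize, z1]; congr 1; ext i; exact i.elim0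
@[simp] lemma real_plus (s t : Tm n) (v : Empty ⊕ Fin n → N) :
    (plus s t).realize v = ad (s.realize v) (t.realize v) := by
  simp only [plus, Term.realize, ad]; congr 1; ext i; fin_cases i <;> rfl
@[simp] lemma real_times (s t : Tm n) (v : Empty ⊕ Fin n → N) :
    (times s t).realize v = mu (s.realize v) (t.realize v) := by
  simp only [times, Term.realize, mu]; congr 1; ext i; fin_cases i <;> rfl
@[simp] lemma real_less (s t : Tm n) (v : Empty → N) (xs : Fin n → N) :
    (less s t).Realize v xs ↔ lt (s.realize (Sum.elim v xs)) (t.realize (Sum.elim v xs)) := by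
  simp only [less, BoundedFormula.Realize, lt]
  refine iff_of_eq ?_
  congr 1; ext i; fin_cases i <;> rfl

lemma real_lift (t : Tm n) (v : Empty → N) (xs : Fin n → N) (y : N) :
    (t.relabel (Sum.map id Fin.castSucc)).realize (Sum.elim v (Fin.snoc xs y : Fin (n + 1) → N)) =
      t.realize (Sum.elim v xs) := by
  rw [Term.realize_relabel]
  congr 1
  ext i
  rcases i with i | i <;> simp

@[simp] lemma real_ball (t : Tm n) (φ : Fm (n + 1)) (v : Empty → N) (xs : Fin n → N) :
    (ball t φ).Realize v xs ↔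
      ∀ y, lt y (t.realize (Sum.elim v xs)) → φ.Realize v (Fin.snoc xs y) := by
  simp only [ball, BoundedFormula.realize_all, BoundedFormula.realize_imp, real_less, real_lift]
  simp

end general

variable {G : Type} [PartialOrder G]

/-- maximal elements -/
noncomputable def mx (s : Finset G) : Finset G := s.filter fun g => ∀ h ∈ s, ¬ g < h

lemma mem_mx {s : Finset G} {g : G} : g ∈ mx s ↔ g ∈ s ∧ ∀ h ∈ s, ¬ g < h := Finset.mem_filter

lemma exists_mx {s : Finset G} {g : G} (hg : g ∈ s) : ∃ h ∈ mx s, g ≤ h := by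
  obtain ⟨h, h1, h2⟩ := Finset.exists_le_maximal s hg
  exact ⟨h, mem_mx.2 ⟨h2.1, fun k hk hlt => h2.not_prop_of_gt hlt hk⟩, h1⟩

/-- the order on finite sets -/
def below (s t : Finset G) : Prop :=
  s = t ∨ ((∀ g ∈ t, ∀ h ∈ t, ¬ g < h) ∧ ∀ g ∈ s, ∃ h ∈ t, g ≤ h)

lemma below_mx (s u : Finset G) : below s (mx (s ∪ u)) :=
  Or.inr ⟨fun _ hg h hh => (mem_mx.1 hg).2 h (mem_mx.1 hh).1,
    fun _ hg => exists_mx (Finset.mem_union_left _ hg)⟩

lemma mx_eq {s t : Finset G} (h1 : ∀ g ∈ t, ∀ h ∈ t, ¬ g < h) (h2 : ∀ g ∈ s, ∃ h ∈ t, g ≤ h) :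
    mx (s ∪ t) = t := by
  ext g
  rw [mem_mx]
  constructor
  · rintro ⟨hg, hm⟩
    rcases Finset.mem_union.1 hg with hg | hg
    · obtain ⟨h, hh, hle⟩ := h2 g hg
      rcases hle.eq_or_lt with rfl | hlt
      · exact hh
      · exact absurd hlt (hm h (Finset.mem_union_right _ hh))
    · exact hg
  · intro hg
    refine ⟨Finset.mem_union_right _ hg, fun h hh hlt => ?_⟩
    rcases Finset.mem_union.1 hh with hh | hh
    · obtain ⟨k, hk, hle⟩ := h2 h hh
      exact h1 g hg k hk (hlt.trans_le hle)
    · exact h1 g hg h hh hlt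

lemma mx_union_self (s : Finset G) : mx (mx s ∪ s) = mx s := by
  rw [Finset.union_eq_right.2 (fun g hg => (mem_mx.1 hg).1)]

/-- label of a finite set -/
noncomputable def lb (lab : G → ℕ) (s : Finset G) : ℕ := if h : ∃ g, s = {g} then lab h.choose else 0

omit [PartialOrder G] in
lemma lb_single (lab : G → ℕ) (g : G) : lb lab {g} = lab g := by
  have h : ∃ g', ({g} : Finset G) = {g'} := ⟨g, rfl⟩
  rw [lb, dif_pos h, ← Finset.singleton_injective h.choose_spec]

omit [PartialOrder G] in
lemma lb_ne {lab : G → ℕ} {s : Finset G} (h : lb lab s ≠ 0) : ∃ g, s = {g} := by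
  by_contra c
  exact h (dif_neg c)

/-- The model. -/
inductive M (lab : G → ℕ) (st : Bool) : Type
  | inl : ℕ → M lab st
  | inr : Finset G → M lab st

variable {lab : G → ℕ} {st : Bool}

instance : Nonempty (M lab st) := ⟨M.inl 0⟩

/-- addition -/
noncomputable def madd : M lab st → M lab st → M lab st
  | .inl a, .inl b => .inl (a + b)
  | .inl _, .inr t => .inr t
  | .inr s, .inl _ => .inr s
  | .inr s, .inr t => .inr (mx (s ∪ t))

/-- multiplication -/
noncomputable def mmul : M lab st → M lab st → M lab st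
  | .inl a, .inl b => .inl (a * b)
  | .inl a, .inr t => if a = 0 then .inl (lb lab t) else .inr t
  | .inr s, .inl b => if b = 0 then .inl 0 else if b = 1 then .inr s else .inr (mx s)
  | .inr s, .inr _ => .inr (mx s)

/-- the non-strict version of the order -/
def mlt : M lab st → M lab st → Prop
  | .inl a, .inl b => a < b
  | .inl _, .inr _ => True
  | .inr _, .inl _ => False
  | .inr s, .inr t => below s t

noncomputable instance : LA.Structure (M lab st) where
  funMap := fun {_} f v =>
    match f, v with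
    | Fn.zero, _ => M.inl 0
    | Fn.one, _ => M.inl 1
    | Fn.add, v => madd (v 0) (v 1)
    | Fn.mul, v => mmul (v 0) (v 1)
  RelMap := fun {_} r v =>
    match r, v with
    | Rl.lt, v => mlt (v 0) (v 1) ∧ (st = true → v 0 ≠ v 1)

lemma z0_eq : z0 (M lab st) = M.inl 0 := rfl
lemma z1_eq : z1 (M lab st) = M.inl 1 := rfl
lemma ad_eq (x y : M lab st) : ad x y = madd x y := rfl
lemma mu_eq (x y : M lab st) : mu x y = mmul x y := rfl
lemma lt_eq (x y : M lab st) : lt x y ↔ mlt x y ∧ (st = true → x ≠ y) := Iff.rfl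

lemma madd_comm (x y : M lab st) : madd x y = madd y x := by
  rcases x with a | s <;> rcases y with b | t <;> simp [madd, add_comm, Finset.union_comm]

lemma mlt_iff (x y : M lab st) : mlt x y ↔ ∃ z, madd x (madd z (.inl 1)) = y := by
  rcases x with a | s <;> rcases y with b | t
  · simp only [mlt]
    constructor
    · intro h
      exact ⟨.inl (b - a - 1), by simp only [madd]; congr 1; omega⟩
    · rintro ⟨c | u, h⟩
      · simp only [madd, M.inl.injEq] at h; omega
      · simp [madd] at h
  · exact iff_of_true trivial ⟨.inr t, rfl⟩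
  · refine iff_of_false id ?_
    rintro ⟨c | u, h⟩ <;> simp [madd] at h
  · simp only [mlt]
    constructor
    · rintro (rfl | ⟨h1, h2⟩)
      · exact ⟨.inl 0, rfl⟩
      · exact ⟨.inr t, by simp only [madd]; rw [mx_eq h1 h2]⟩
    · rintro ⟨c | u, h⟩
      · simp only [madd, M.inr.injEq] at h
        exact Or.inl h
      · simp only [madd, M.inr.injEq] at h
        rw [← h]
        exact below_mx s u

lemma mlt_iff' (x y : M lab st) (hxy : x ≠ y) : mlt x y ↔ ∃ z, madd x z = y := by
  rw [mlt_iff]
  constructor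
  · rintro ⟨z, hz⟩; exact ⟨_, hz⟩
  · rintro ⟨c | u, h⟩
    · rcases c with _ | c
      · rcases x with a | s <;> exact absurd h hxy
      · exact ⟨.inl c, h⟩
    · exact ⟨.inr u, h⟩

lemma real_num {n : ℕ} (k : ℕ) (v : Empty ⊕ Fin n → M lab st) :
    (num k : Tm n).realize v = M.inl k := by
  induction k with
  | zero => simp [num, z0_eq]
  | succ k ih => simp only [num, real_plus, real_t1, ih]; rfl


theorem model_Q : M lab st ⊨ Q st := by
  refine ⟨fun φ hφ => ?_⟩
  simp only [Q, Set.mem_union, Set.mem_insert_iff, Set.mem_singleton_iff] at hφ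
  rcases hφ with (rfl | rfl | rfl | rfl | rfl | rfl | rfl | rfl) | hφ
  · simp [q0, q1, q2, q3, q4, q5, q6, q7, q8, q9, q10, q11, Sentence.Realize, Formula.Realize]; rfl
  · simp [q0, q1, q2, q3, q4, q5, q6, q7, q8, q9, q10, q11, Sentence.Realize, Formula.Realize, Fin.snoc]
    rintro (a | s) <;> simp [ad_eq, z0_eq, z1_eq, madd]
  · simp [q0, q1, q2, q3, q4, q5, q6, q7, q8, q9, q10, q11, Sentence.Realize, Formula.Realize, Fin.snoc]
    rintro (a | s) (b | t) <;> simp [ad_eq, z1_eq, madd]
  · simp [q0, q1, q2, q3, q4, q5, q6, q7, q8, q9, q10, q11, Sentence.Realize, Formula.Realize, Fin.snoc]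
    rintro (a | s) h
    · refine ⟨.inl (a - 1), ?_⟩
      have : a ≠ 0 := fun e => h (by rw [e]; rfl)
      simp only [ad_eq, z1_eq, madd]
      congr 1
      omega
    · exact ⟨.inr s, rfl⟩
  · simp [q0, q1, q2, q3, q4, q5, q6, q7, q8, q9, q10, q11, Sentence.Realize, Formula.Realize, Fin.snoc]
    rintro (a | s) <;> rfl
  · simp [q0, q1, q2, q3, q4, q5, q6, q7, q8, q9, q10, q11, Sentence.Realize, Formula.Realize, Fin.snoc]
    rintro (a | s) (b | t) <;> rfl
  · simp [q0, q1, q2, q3, q4, q5, q6, q7, q8, q9, q10, q11, Sentence.Realize, Formula.Realize, Fin.snoc]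
    rintro (a | s) <;> simp [mu_eq, z0_eq, mmul]
  · simp [q0, q1, q2, q3, q4, q5, q6, q7, q8, q9, q10, q11, Sentence.Realize, Formula.Realize, Fin.snoc]
    rintro (a | s) (b | t)
    · rfl
    · by_cases h : a = 0 <;> simp [mu_eq, ad_eq, z1_eq, mmul, madd, h]
    · rcases b with _ | _ | b <;> simp [mu_eq, ad_eq, z1_eq, mmul, madd, mx_union_self]
    · simp [mu_eq, ad_eq, z1_eq, mmul, madd, mx_union_self]
  · cases st
    · simp only [Bool.false_eq_true, if_false, Set.mem_insert_iff, Set.mem_singleton_iff] at hφ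
      rcases hφ with rfl | rfl
      · simp [q0, q1, q2, q3, q4, q5, q6, q7, q8, q9, q10, q11, Sentence.Realize, Formula.Realize, Fin.snoc]
        intro x y
        simpa [lt_eq, ad_eq, z1_eq] using mlt_iff x y
      · simp [q0, q1, q2, q3, q4, q5, q6, q7, q8, q9, q10, q11, Sentence.Realize, Formula.Realize, Fin.snoc]
        intro x y
        simpa [lt_eq, ad_eq, z1_eq, madd_comm x] using mlt_iff x y
    · simp only [if_true, Set.mem_insert_iff, Set.mem_singleton_iff] at hφ
      rcases hφ with rfl | rfl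
      · simp [q0, q1, q2, q3, q4, q5, q6, q7, q8, q9, q10, q11, Sentence.Realize, Formula.Realize, Fin.snoc]
        intro x y
        by_cases h : x = y
        · simp [lt_eq, h]
        · simpa [lt_eq, ad_eq, h] using mlt_iff' x y h
      · simp [q0, q1, q2, q3, q4, q5, q6, q7, q8, q9, q10, q11, Sentence.Realize, Formula.Realize, Fin.snoc]
        intro x y
        by_cases h : x = y
        · simp [lt_eq, h]
        · simpa [lt_eq, ad_eq, h, madd_comm x] using mlt_iff' x y h

end Pool.Agent.MP_352f7f_lc.H82
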