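import Pool.Agent.MP_352f7f_lc.H82.First

/-! The second theory. -/

open FirstOrder FirstOrder.Language Classical

namespace Pool.Agent.MP_352f7f_lc.H82

/-- lifting a term past a new variable -/
def up {m : ℕ} (t : Tm m) : Tm (m + 1) := t.relabel (Sum.map id Fin.castSucc)

/-- substitution in terms -/
def sub {n m : ℕ} (σ : Fin n → Tm m) (t : Tm n) : Tm m := t.subst (Sum.elim (fun e => e.elim) σ)

/-- bounding all quantifiers by the term `c` -/
def tr : ∀ {n : ℕ}, Fm n → ∀ {m : ℕ}, Tm m → (Fin n → Tm m) → Fm m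
  | _, .falsum, _, _, _ => ⊥
  | _, .equal s t, _, _, σ => .equal (sub σ s) (sub σ t)
  | _, .rel r ts, _, _, σ => .rel r fun i => sub σ (ts i)
  | _, .imp φ ψ, _, c, σ => tr φ c σ ⟹ tr ψ c σ
  | _, .all φ, m, c, σ =>
    ball c (tr φ (up c) (Fin.snoc (fun i => up (σ i)) &(Fin.last m))) ⊓ tr φ c (Fin.snoc σ c)

lemma Delta0.inf {n : ℕ} {φ ψ : Fm n} (h1 : Delta0 φ) (h2 : Delta0 ψ) : Delta0 (φ ⊓ ψ) :=
  .imp (.imp h1 (.imp h2 .falsum)) .falsum

lemma delta_tr {n : ℕ} (φ : Fm n) {m : ℕ} (c : Tm m) (σ : Fin n → Tm m) : Delta0 (tr φ c σ) := by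
  induction φ generalizing m with
  | falsum => exact .falsum
  | equal s t => exact .atomic (.equal _ _)
  | rel r ts => exact .atomic (.rel _ _)
  | imp φ ψ i1 i2 => exact .imp (i1 _ _) (i2 _ _)
  | all φ ih => exact (Delta0.ball _ (ih _ _)).inf (ih _ _)

section general

variable {N : Type*} [LA.Structure N]

lemma real_sub {n m : ℕ} (σ : Fin n → Tm m) (t : Tm n) (v : Fin m → N) :
    (sub σ t).realize (Sum.elim default v) =
      t.realize (Sum.elim default fun i => (σ i).realize (Sum.elim default v)) := by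
  rw [sub, Term.realize_subst]
  congr 1
  ext i
  rcases i with i | i
  · exact i.elim
  · rfl

end general

lemma real_tr {N : Type} [LA.Structure N] {cv : N} (hc : ∀ x, lt x cv ∨ x = cv) {n : ℕ} (φ : Fm n)
    {m : ℕ} (c : Tm m) (σ : Fin n → Tm m) (v : Fin m → N)
    (e : c.realize (Sum.elim default v) = cv) :
    (tr φ c σ).Realize default v ↔
      φ.Realize default fun i => (σ i).realize (Sum.elim default v) := by
  induction φ generalizing m with
  | falsum => rfl
  | equal s t => simp only [tr, BoundedFormula.Realize, real_sub]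
  | rel r ts => simp only [tr, BoundedFormula.Realize, real_sub]
  | imp φ ψ i1 i2 => simp only [tr, BoundedFormula.realize_imp, i1 c σ v e, i2 c σ v e]
  | @all n φ ih =>
    have e1 : ∀ y, (fun i => ((Fin.snoc (fun i => up (σ i)) &(Fin.last m) :
        Fin (n + 1) → Tm (m + 1)) i).realize (Sum.elim default (Fin.snoc v y : Fin (m + 1) → N))) =
        (Fin.snoc (fun i => (σ i).realize (Sum.elim default v)) y : Fin (n + 1) → N) := by
      intro y
      ext i
      induction i using Fin.lastCases with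
      | last => simp
      | cast i => simp only [Fin.snoc_castSucc, up, real_lift]
    have e2 : (fun i => ((Fin.snoc σ c : Fin (n + 1) → Tm m) i).realize (Sum.elim default v)) =
        (Fin.snoc (fun i => (σ i).realize (Sum.elim default v)) cv : Fin (n + 1) → N) := by
      ext i
      induction i using Fin.lastCases with
      | last => simp [e]
      | cast i => simp
    have e3 : ∀ y, (up c).realize (Sum.elim default (Fin.snoc v y : Fin (m + 1) → N)) = cv :=
      fun y => by rw [up, real_lift, e]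
    simp only [tr, BoundedFormula.realize_inf, real_ball, BoundedFormula.realize_all, e,
      ih c _ v e, e2]
    constructor
    · rintro ⟨h1, h2⟩ y
      rcases hc y with h | rfl
      · rw [← e1, ← ih _ _ _ (e3 y)]
        exact h1 y h
      · exact h2
    · intro h
      exact ⟨fun y _ => by rw [ih _ _ _ (e3 y), e1]; exact h y, h cv⟩

/-- the bounded form of a sentence -/
def ax (φ : LA.Sentence) : LA.Sentence :=
  ∃' ∀' ((less &1 &0 ⊔ (&1 =' &0)) ⊓ tr φ &0 ![])

lemma lev_ax (φ : LA.Sentence) : Lev true 2 (ax φ) :=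
  .ex (.step true (.all (.step false (.base _ (Delta0.inf
    (.imp (.imp (.atomic (.rel _ _)) .falsum) (.atomic (.equal _ _))) (delta_tr _ _ _))))))

lemma real_ax (N : Type) [LA.Structure N] [Nonempty N] (φ : LA.Sentence) :
    N ⊨ ax φ ↔ (∃ c : N, ∀ x, lt x c ∨ x = c) ∧ N ⊨ φ := by
  have key : ∀ c : N, (∀ x, lt x c ∨ x = c) → ∀ x : N,
      ((tr φ &0 ![] : Fm 2).Realize default (Fin.snoc (Fin.snoc default c : Fin 1 → N) x) ↔
        N ⊨ φ) := by
    intro c hc x
    rw [real_tr hc φ _ _ _ (by simp [Fin.snoc])]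
    exact iff_of_eq (congrArg _ (Subsingleton.elim _ _))
  simp only [ax, Sentence.Realize, Formula.Realize, BoundedFormula.realize_ex,
    BoundedFormula.realize_all, BoundedFormula.realize_inf, BoundedFormula.realize_sup, real_less,
    BoundedFormula.realize_bdEqual] at key ⊢
  simp only [Function.comp, Term.realize_var, Sum.elim_inr] at key ⊢
  constructor
  · rintro ⟨c, hc⟩
    have h : ∀ x, lt x c ∨ x = c := fun x => by simpa [Fin.snoc] using (hc x).1
    exact ⟨⟨c, h⟩, (key c h c).1 (hc c).2⟩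
  · rintro ⟨⟨c, hc⟩, h⟩
    exact ⟨c, fun x => ⟨by simpa [Fin.snoc] using hc x, (key c hc x).2 h⟩⟩

theorem restricted_of_top (N : Type) [LA.Structure N] [Nonempty N]
    (h : ∃ c : N, ∀ x, lt x c ∨ x = c) : Restricted (LA.completeTheory N) := by
  refine ⟨2, ax '' LA.completeTheory N, ?_, fun φ => ⟨fun H => ?_, fun H => ?_⟩⟩
  · rintro _ ⟨φ, -, rfl⟩
    exact lev_ax φ
  · have : N ⊨ ax '' LA.completeTheory N := ⟨by
      rintro _ ⟨φ, hφ, rfl⟩
      exact (real_ax N φ).2 ⟨h, hφ⟩⟩
    exact H.realize_sentence N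
  · refine Theory.models_sentence_iff.2 fun K => ?_
    exact ((real_ax K φ).1 (Theory.realize_sentence_of_mem _ (Set.mem_image_of_mem ax H))).2

/-- labelling of the second model -/
noncomputable def slab (S : Set ℕ) (g : ℕᵒᵈ) : ℕ :=
  if OrderDual.ofDual g ∈ S then OrderDual.ofDual g + 1 else 0

lemma top_slab (S : Set ℕ) (st : Bool) : ∃ c : M (slab S) st, ∀ x, lt x c ∨ x = c := by
  refine ⟨M.inr {OrderDual.toDual 0}, fun x => ?_⟩
  by_cases e : x = M.inr {OrderDual.toDual 0}
  · exact Or.inr e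
  · refine Or.inl ((lt_eq _ _).2 ⟨?_, fun _ => e⟩)
    rcases x with a | s
    · trivial
    · exact Or.inr ⟨by simp, fun g _ => ⟨_, Finset.mem_singleton_self _, Nat.zero_le _⟩⟩

/-- the sentence `∃ x, 0 · x = n + 1` -/
def chi (n : ℕ) : LA.Sentence := ∃' hasLab 0 (n + 1)

lemma real_chi (S : Set ℕ) (st : Bool) (n : ℕ) : M (slab S) st ⊨ chi n ↔ n ∈ S := by
  simp only [chi, Sentence.Realize, Formula.Realize, BoundedFormula.realize_ex,
    real_hasLab (Nat.succ_ne_zero n), Fin.snoc_last]
  constructor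
  · rintro ⟨x, h, -, e⟩
    simp only [slab] at e
    split_ifs at e with c
    rwa [← Nat.succ_injective e]
  · intro h
    exact ⟨_, OrderDual.toDual n, rfl, by simp [slab, h]⟩

lemma chi_indep (z o : ℕ) (a m : ℕ → ℕ → ℕ) (l l' : ℕ → ℕ → Prop) (n : ℕ) :
    @Sentence.Realize LA ℕ (natStr z o a m l) (chi n) ↔
      @Sentence.Realize LA ℕ (natStr z o a m l') (chi n) := by
  have key : ∀ (t : Tm 1) (v : Empty ⊕ Fin 1 → ℕ), @Term.realize LA ℕ (natStr z o a m l) _ v t =
      @Term.realize LA ℕ (natStr z o a m l') _ v t := by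
    intro t v
    induction t with
    | var i => rfl
    | func f ts ih =>
      simp only [Term.realize, ih]
      cases f <;> rfl
  simp only [chi, hasLab, Sentence.Realize, Formula.Realize, BoundedFormula.realize_ex,
    BoundedFormula.realize_bdEqual, key]

lemma exists_S : ∃ S : Set ℕ, ∀ (z o : ℕ) (a m : ℕ → ℕ → ℕ) (l : ℕ → ℕ → Prop), Computable₂ a →
    Computable₂ m → {n | @Sentence.Realize LA ℕ (natStr z o a m l) (chi n)} ≠ S := by
  let C := {f : ℕ → ℕ // Computable f}
  let f : ℕ × ℕ × C × C → Set ℕ := fun p =>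
    {n | @Sentence.Realize LA ℕ (natStr p.1 p.2.1 (fun x y => p.2.2.1.1 (Nat.pair x y))
      (fun x y => p.2.2.2.1 (Nat.pair x y)) fun _ _ => True) (chi n)}
  have : ¬ Function.Surjective f := fun h => by
    have := h.countable
    obtain ⟨g, hg⟩ := exists_surjective_nat (Set ℕ)
    exact Function.cantor_surjective g hg
  simp only [Function.Surjective, not_forall, not_exists] at this
  obtain ⟨S, hS⟩ := this
  refine ⟨S, fun z o a m l ha hm e => hS (z, o, ⟨fun n => a n.unpair.1 n.unpair.2, ?_⟩,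
    ⟨fun n => m n.unpair.1 n.unpair.2, ?_⟩) ?_⟩
  · exact ha.comp (Computable.fst.comp Computable.unpair) (Computable.snd.comp Computable.unpair)
  · exact hm.comp (Computable.fst.comp Computable.unpair) (Computable.snd.comp Computable.unpair)
  · rw [← e]
    ext n
    have e1 : (fun x y => a (Nat.pair x y).unpair.1 (Nat.pair x y).unpair.2) = a := by simp
    have e2 : (fun x y => m (Nat.pair x y).unpair.1 (Nat.pair x y).unpair.2) = m := by simp
    have := chi_indep z o (fun x y => a (Nat.pair x y).unpair.1 (Nat.pair x y).unpair.2)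
      (fun x y => m (Nat.pair x y).unpair.1 (Nat.pair x y).unpair.2) (fun _ _ => True) l n
    refine this.trans ?_
    rw [e1, e2]
    rfl

theorem second (st : Bool) : ∃ T, InTQ st T ∧ NRec T ∧ ¬ NRestr T := by
  obtain ⟨S, hS⟩ := exists_S
  refine ⟨LA.completeTheory (M (slab S) st), inTQ_complete _ model_Q, ?_, fun H =>
    H _ subset_rfl (completeTheory.isMaximal _ _) (restricted_of_top _ (top_slab S st))⟩
  intro z o a m l ha hm _ hT
  refine (hS z o a m l ha hm ?_).elim
  ext n
  let _ := natStr z o a m l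
  simp only [Set.mem_ofPred_eq, ← real_chi S st n]
  exact realize_iff_of_model_completeTheory _ ℕ _

theorem first (st : Bool) : ∃ T, InTQ st T ∧ NRestr T ∧ ¬ MRDP T ∧ ¬ WeakTruth T :=
  ⟨_, inTQ_complete (M1 st) model_Q, nrestr_M1, not_mrdp_M1, not_truth_M1⟩

end Pool.Agent.MP_352f7f_lc.H82
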