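import Pool.Agent.MP_352f7f_lc.H82.Game

/-! A forest of game trees and its back and forth systems. -/

open FirstOrder FirstOrder.Language Classical

namespace Pool.Agent.MP_352f7f_lc.H82

/-- indices of trees -/
abbrev I := ℕ × Option Bool

/-- nodes of the forest -/
@[ext] structure Node where
  /-- the tree -/
  t : I
  /-- the path from the node to the root -/
  l : List (Bool × ℕ)

/-- ancestor relation -/
def anc (a b : Node) : Prop := a.t = b.t ∧ a.l <:+ b.l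

instance : PartialOrder Node where
  le a b := if a.t.2 = none then anc a b else anc b a
  le_refl a := by split_ifs <;> exact ⟨rfl, List.suffix_refl _⟩
  le_trans a b c h1 h2 := by
    split_ifs at h1 h2 ⊢ with ha hb hb
    · exact ⟨h1.1.trans h2.1, h1.2.trans h2.2⟩
    · exact absurd (h1.1 ▸ ha) hb
    · exact absurd (h1.1 ▸ hb) ha
    · exact ⟨h2.1.trans h1.1, h2.2.trans h1.2⟩
  le_antisymm a b h1 h2 := by
    split_ifs at h1 h2 with ha hb hb
    · exact Node.ext h1.1 (h1.2.eq_of_length_le h2.2.length_le)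
    · exact absurd (h1.1 ▸ ha) hb
    · exact absurd (h1.1 ▸ hb) ha
    · exact Node.ext h2.1 (h2.2.eq_of_length_le h1.2.length_le)

lemma le_def (a b : Node) : a ≤ b ↔ if a.t.2 = none then anc a b else anc b a := Iff.rfl

/-- type of a root -/
def rt (ρ : ℕ → Bool) (i : I) : Bool :=
  match i.2 with
  | none => ρ i.1
  | some σ => σ

/-- type of a node -/
def ty (ρ : ℕ → Bool) (i : I) : List (Bool × ℕ) → Bool
  | [] => rt ρ i
  | x :: l => !ty ρ i l || x.1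

/-- code of the position of a node -/
def cd (n d : ℕ) (up : Bool) : ℕ := Nat.pair (Nat.pair n d) up.toNat + 2

lemma cd_inj {n d n' d' : ℕ} {u u' : Bool} (h : cd n d u = cd n' d' u') :
    n = n' ∧ d = d' ∧ u = u' := by
  simp only [cd, Nat.add_right_cancel_iff, Nat.pair_eq_pair] at h
  refine ⟨h.1.1, h.1.2, ?_⟩
  cases u <;> cases u' <;> simp_all

/-- the labelling -/
def tlab (ρ : ℕ → Bool) (g : Node) : ℕ :=
  if g.l.length = g.t.1 ∧ ty ρ g.t g.l = true then 1 else cd g.t.1 g.l.length g.t.2.isNone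

/-- bounded copy indices -/
def Bd (N : ℕ) (a : Node) : Prop := ∀ x ∈ a.l, x.2 < N

/-- the back and forth system -/
structure Sys (ρ ρ' : ℕ → Bool) (γ : I ≃ I) (F : Set I) (k : ℕ) (p : Node → Node → Prop) :
    Prop where
  tree : ∀ {a a'}, p a a' → a'.t = γ a.t ∧ a'.l.length = a.l.length
  root : ∀ i, p ⟨i, []⟩ ⟨γ i, []⟩
  frozen : ∀ a, a.t ∈ F → p a a
  fin : ∃ N, ∀ a a', p a a' → (a = a' ∧ a.t ∈ F) ∨ (Bd N a ∧ Bd N a')
  parent : ∀ {i i' x x' l l'}, p ⟨i, x :: l⟩ ⟨i', x' :: l'⟩ → p ⟨i, l⟩ ⟨i', l'⟩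
  inj : ∀ {a a' b b'}, p a a' → p b b' → (a = b ↔ a' = b')
  types : ∀ {a a'}, p a a' → ty ρ a.t a.l = ty ρ' a'.t a'.l ∨ a.l.length + k < a.t.1

/-- admissible permutations of the trees -/
def Adm (γ : I ≃ I) : Prop := ∀ i, (γ i).1 = i.1 ∧ ((γ i).2 = none ↔ i.2 = none)

variable {ρ ρ' : ℕ → Bool} {γ : I ≃ I} {F : Set I} {k : ℕ} {p : Node → Node → Prop}

lemma Adm.symm (h : Adm γ) : Adm γ.symm := fun i => by
  have := h (γ.symm i)
  rw [Equiv.apply_symm_apply] at this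
  exact ⟨this.1.symm, this.2.symm⟩

lemma Sys.symm (hγ : Adm γ) (h : Sys ρ ρ' γ F k p) : Sys ρ' ρ γ.symm F k (flip p) where
  tree := fun {a a'} hp => by
    have := h.tree hp
    exact ⟨by rw [this.1, Equiv.symm_apply_apply], this.2.symm⟩
  root := fun i => by
    have := h.root (γ.symm i)
    rw [Equiv.apply_symm_apply] at this
    exact this
  frozen := h.frozen
  fin := by
    obtain ⟨N, hN⟩ := h.fin
    refine ⟨N, fun a a' hp => ?_⟩
    rcases hN a' a hp with ⟨e, hF⟩ | ⟨h1, h2⟩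
    · exact Or.inl ⟨e.symm, e ▸ hF⟩
    · exact Or.inr ⟨h2, h1⟩
  parent := fun hp => h.parent hp
  inj := fun h1 h2 => (h.inj h1 h2).symm
  types := fun {a a'} hp => by
    have h1 := h.tree hp
    rcases h.types hp with e | e
    · exact Or.inl e.symm
    · refine Or.inr ?_
      rw [h1.1, h1.2, (hγ _).1]
      exact e

lemma Sys.up (h : Sys ρ ρ' γ F k p) {a b b' : Node} (hb : p b b') (hab : anc a b) :
    ∃ a', p a a' ∧ anc a' b' := by
  obtain ⟨i, l⟩ := b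
  obtain ⟨i', l'⟩ := b'
  induction l generalizing l' with
  | nil =>
    have : a = ⟨i, []⟩ := Node.ext hab.1 (List.suffix_nil.1 hab.2)
    exact ⟨_, this ▸ hb, rfl, List.suffix_refl _⟩
  | cons x l ih =>
    rcases List.suffix_cons_iff.1 hab.2 with e | e
    · have : a = ⟨i, x :: l⟩ := Node.ext hab.1 e
      exact ⟨_, this ▸ hb, rfl, List.suffix_refl _⟩
    · rcases l' with _ | ⟨x', l'⟩
      · simpa using (h.tree hb).2
      · obtain ⟨a', h1, h2⟩ := ih ⟨hab.1, e⟩ l' (h.parent hb)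
        exact ⟨a', h1, h2.1, h2.2.trans (List.suffix_cons _ _)⟩

lemma Sys.anc_of (h : Sys ρ ρ' γ F k p) {a a' b b' : Node} (ha : p a a') (hb : p b b')
    (hab : anc a b) : anc a' b' := by
  obtain ⟨c, h1, h2⟩ := h.up hb hab
  rwa [(h.inj ha h1).1 rfl]

lemma Sys.iso (hγ : Adm γ) (h : Sys ρ ρ' γ F k p) : PIso (tlab ρ) (tlab ρ') p where
  le := fun {a a' b b'} ha hb => by
    have e : a'.t.2 = none ↔ a.t.2 = none := by rw [(h.tree ha).1]; exact (hγ _).2
    have s := h.symm hγ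
    rw [le_def, le_def]
    by_cases c : a.t.2 = none
    · rw [if_pos c, if_pos (e.2 c)]
      exact ⟨h.anc_of ha hb, s.anc_of ha hb⟩
    · rw [if_neg c, if_neg (fun d => c (e.1 d))]
      exact ⟨h.anc_of hb ha, s.anc_of hb ha⟩
  lab := fun {a a'} ha => by
    have h1 := h.tree ha
    have e1 : a'.t.1 = a.t.1 := by rw [h1.1]; exact (hγ _).1
    have e2 : a'.t.2.isNone = a.t.2.isNone := by
      have := (hγ a.t).2
      rw [← h1.1] at this
      rw [Bool.eq_iff_iff]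
      simpa using this
    simp only [tlab, e1, e2, h1.2]
    rcases h.types ha with e | e
    · rw [e]
    · rw [if_neg (by omega), if_neg (by omega)]

lemma Sys.mono (h : Sys ρ ρ' γ F (k + 1) p) : Sys ρ ρ' γ F k p :=
  { h with types := fun hp => (h.types hp).imp_right fun e => by omega }

/-- code of a step -/
def enc (x : Bool × ℕ) : ℕ := 2 * x.2 + x.1.toNat

lemma enc_inj {x y : Bool × ℕ} (h : enc x = enc y) : x = y := by
  obtain ⟨a, b⟩ := x
  obtain ⟨c, d⟩ := y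
  cases a <;> cases c <;> simp [enc] at h ⊢ <;> omega

/-- total extension of a relation -/
noncomputable def ext (ρ : ℕ → Bool) (p : Node → Node → Prop) (N : ℕ) (i : I) :
    List (Bool × ℕ) → List (Bool × ℕ)
  | [] => []
  | x :: l =>
    if h : ∃ a', p ⟨i, x :: l⟩ a' then h.choose.l else (ty ρ i (x :: l), N + enc x) :: ext ρ p N i l

lemma Sys.ext_eq (h : Sys ρ ρ' γ F k p) (N : ℕ) {a a' : Node} (ha : p a a') :
    a' = ⟨γ a.t, ext ρ p N a.t a.l⟩ := by
  obtain ⟨i, _ | ⟨x, l⟩⟩ := a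
  · exact (h.inj ha (h.root i)).1 rfl
  · have e : ∃ a', p ⟨i, x :: l⟩ a' := ⟨a', ha⟩
    simp only [ext, dif_pos e]
    rw [← (h.inj ha e.choose_spec).1 rfl]
    exact Node.ext (h.tree ha).1 rfl

lemma Sys.ext_cons (h : Sys ρ ρ' γ F k p) (N : ℕ) (i : I) (x : Bool × ℕ) (l : List (Bool × ℕ)) :
    (p ⟨i, x :: l⟩ ⟨γ i, ext ρ p N i (x :: l)⟩ ∧ ∃ y, ext ρ p N i (x :: l) = y :: ext ρ p N i l) ∨
    ((¬ ∃ a', p ⟨i, x :: l⟩ a') ∧
      ext ρ p N i (x :: l) = (ty ρ i (x :: l), N + enc x) :: ext ρ p N i l) := by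
  by_cases e : ∃ a', p ⟨i, x :: l⟩ a'
  · obtain ⟨a', ha⟩ := e
    have h1 := h.ext_eq N ha
    refine Or.inl ⟨h1 ▸ ha, ?_⟩
    obtain ⟨i', _ | ⟨y, l'⟩⟩ := a'
    · simpa using (h.tree ha).2
    · have h2 := h.ext_eq N (h.parent ha)
      simp only [Node.mk.injEq] at h1 h2
      exact ⟨y, by rw [← h1.2, ← h2.2]⟩
  · exact Or.inr ⟨e, by simp only [ext, dif_neg e]⟩

lemma Sys.ext_length (h : Sys ρ ρ' γ F k p) (N : ℕ) (i : I) (l : List (Bool × ℕ)) :
    (ext ρ p N i l).length = l.length := by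
  induction l with
  | nil => rfl
  | cons x l ih => rcases h.ext_cons N i x l with ⟨-, y, e⟩ | ⟨-, e⟩ <;> simp [e, ih]

lemma Sys.ext_inj (h : Sys ρ ρ' γ F k p) {N : ℕ}
    (hN : ∀ a a', p a a' → (a = a' ∧ a.t ∈ F) ∨ (Bd N a ∧ Bd N a')) (i : I)
    (l m : List (Bool × ℕ)) (e : ext ρ p N i l = ext ρ p N i m) : l = m := by
  induction l generalizing m with
  | nil =>
    have := congrArg List.length e
    rw [h.ext_length, h.ext_length] at this
    exact (List.length_eq_zero_iff.1 this.symm).symm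
  | cons x l ih =>
    rcases m with _ | ⟨y, m⟩
    · have := congrArg List.length e
      rw [h.ext_length, h.ext_length] at this
      simp at this
    have key : ∀ {x y : Bool × ℕ} {l m : List (Bool × ℕ)},
        ext ρ p N i (x :: l) = ext ρ p N i (y :: m) → p ⟨i, x :: l⟩ ⟨γ i, ext ρ p N i (x :: l)⟩ →
        (¬ ∃ a', p ⟨i, y :: m⟩ a') →
        ext ρ p N i (y :: m) = (ty ρ i (y :: m), N + enc y) :: ext ρ p N i m → False := by
      intro x y l m e h1 h2 h3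
      rcases hN _ _ h1 with ⟨-, hF⟩ | ⟨-, hb⟩
      · exact h2 ⟨_, h.frozen _ hF⟩
      · have := hb (ty ρ i (y :: m), N + enc y) (by simp only [e, h3]; simp)
        simp at this
    rcases h.ext_cons N i x l with ⟨h1, -⟩ | ⟨h1, h2⟩ <;>
      rcases h.ext_cons N i y m with ⟨h3, -⟩ | ⟨h3, h4⟩
    · have := (h.inj h1 h3).2 (by rw [e])
      exact (Node.mk.inj this).2
    · exact (key e h1 h3 h4).elim
    · exact (key e.symm h3 h1 h2).elim
    · rw [h2, h4, List.cons.injEq, Prod.mk.injEq] at e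
      rw [enc_inj (Nat.add_left_cancel e.1.2), ih m e.2]

lemma Sys.ext_types (h : Sys ρ ρ' γ F (k + 1) p) (N : ℕ) (i : I) (l : List (Bool × ℕ)) :
    ty ρ i l = ty ρ' (γ i) (ext ρ p N i l) ∨ l.length + (k + 1) < i.1 ∨
      (l.length + k < i.1 ∧ ty ρ i l = false) := by
  induction l with
  | nil => exact (h.types (h.root i)).imp_right Or.inl
  | cons x l ih =>
    rcases h.ext_cons N i x l with ⟨h1, -⟩ | ⟨-, h2⟩
    · exact (h.types h1).imp_right Or.inl
    · rw [h2]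
      simp only [ty, List.length_cons]
      rcases ih with e | e | ⟨-, e⟩
      · rw [← e]
        cases ty ρ i l <;> simp
      · have e' : l.length + 1 + k < i.1 := by omega
        cases ty ρ i l <;> cases ty ρ' (γ i) (ext ρ p N i l) <;> cases x.1 <;> simp [e']
      · simp [e]

lemma Sys.ext_bd (h : Sys ρ ρ' γ F k p) {N N' : ℕ}
    (hN : ∀ a a', p a a' → (a = a' ∧ a.t ∈ F) ∨ (Bd N a ∧ Bd N a')) {i : I} (hi : i ∉ F)
    (l : List (Bool × ℕ)) (hl : ∀ x ∈ l, x.2 < N') : ∀ y ∈ ext ρ p N i l, y.2 < N + 2 * N' := by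
  induction l with
  | nil => simp [ext]
  | cons x l ih =>
    rcases h.ext_cons N i x l with ⟨h1, -⟩ | ⟨-, h2⟩
    · rcases hN _ _ h1 with ⟨-, hF⟩ | ⟨-, hb⟩
      · exact absurd hF hi
      · exact fun y hy => lt_of_lt_of_le (hb y hy) (by omega)
    · rw [h2]
      intro y hy
      rcases List.mem_cons.1 hy with rfl | hy
      · have := hl x (by simp)
        have := Bool.toNat_le x.1
        simp only [enc]
        omega
      · exact ih (fun z hz => hl z (List.mem_cons_of_mem _ hz)) y hy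

lemma Sys.forth (h : Sys ρ ρ' γ F (k + 1) p) (D : Finset Node) :
    ∃ q, (∀ a a', p a a' → q a a') ∧ Sys ρ ρ' γ F k q ∧ ∀ g ∈ D, ∃ g', q g g' := by
  obtain ⟨N, hN⟩ := h.fin
  obtain ⟨N', h1, h2⟩ : ∃ N', N ≤ N' ∧ ∀ g ∈ D, Bd N' g := by
    refine ⟨N + D.sup (fun g => (g.l.map Prod.snd).sum) + 1, by omega, fun g hg x hx => ?_⟩
    have a1 := Finset.le_sup (f := fun g : Node => (g.l.map Prod.snd).sum) hg
    have a2 := List.le_sum_of_mem (List.mem_map_of_mem (f := Prod.snd) hx)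
    omega
  refine ⟨fun a a' => a' = ⟨γ a.t, ext ρ p N a.t a.l⟩ ∧ (a.t ∈ F ∨ Bd N' a), fun a a' ha =>
    ⟨h.ext_eq N ha, ?_⟩, ?_, fun g hg => ⟨_, rfl, Or.inr (h2 g hg)⟩⟩
  · rcases hN a a' ha with ⟨-, hF⟩ | ⟨hb, -⟩
    · exact Or.inl hF
    · exact Or.inr fun x hx => (hb x hx).trans_le h1
  refine ⟨?_, fun i => ⟨rfl, Or.inr (by simp [Bd])⟩,
    fun a ha => ⟨h.ext_eq N (h.frozen a ha), Or.inl ha⟩, ⟨N + 2 * N' + N', ?_⟩, ?_, ?_, ?_⟩
  · rintro a a' ⟨rfl, -⟩
    exact ⟨rfl, h.ext_length N _ _⟩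
  · rintro a a' ⟨rfl, hb⟩
    by_cases hF : a.t ∈ F
    · exact Or.inl ⟨h.ext_eq N (h.frozen a hF), hF⟩
    · have hb := hb.resolve_left hF
      exact Or.inr ⟨fun x hx => (hb x hx).trans_le (by omega),
        fun x hx => (h.ext_bd hN hF _ hb x hx).trans_le (by omega)⟩
  · rintro i i' x x' l l' ⟨e, hb⟩
    simp only [Node.mk.injEq] at e
    refine ⟨?_, hb.imp_right fun hb y hy => hb y (List.mem_cons_of_mem _ hy)⟩
    rcases h.ext_cons N i x l with ⟨-, y, h3⟩ | ⟨-, h3⟩ <;>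
    · rw [h3, List.cons.injEq] at e
      rw [e.1, e.2.2]
  · rintro a a' b b' ⟨rfl, -⟩ ⟨rfl, -⟩
    refine ⟨fun e => by rw [e], fun e => ?_⟩
    simp only [Node.mk.injEq, EmbeddingLike.apply_eq_iff_eq] at e
    refine Node.ext e.1 (h.ext_inj hN a.t _ _ ?_)
    rw [e.2, e.1]
  · rintro a a' ⟨rfl, -⟩
    rcases h.ext_types N a.t a.l with e | e | e
    · exact Or.inl e
    · exact Or.inr (by omega)
    · exact Or.inr e.1

theorem bf (hγ : Adm γ) : BF (tlab ρ) (tlab ρ') (Sys ρ ρ' γ F) where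
  iso := fun _ _ h => h.iso hγ
  mono := fun _ _ h => h.mono
  forth := fun _ _ h D => h.forth D
  back := fun _ _ h D => by
    obtain ⟨q, h1, h2, h3⟩ := (h.symm hγ).forth D
    exact ⟨flip q, fun a a' ha => h1 a' a ha, h2.symm hγ.symm, h3⟩

lemma Sys.down_aux (h : Sys ρ ρ' γ {i | i.2 ≠ none} k p) (a a' b : Node) (ha : p a a')
    (hb : b ≤ a) : ∃ b', p b b' := by
  rw [le_def] at hb
  split_ifs at hb with c
  · exact (h.up ha hb).imp fun _ e => e.1
  · exact ⟨b, h.frozen b c⟩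

lemma Sys.down (hγ : Adm γ) (h : Sys ρ ρ' γ {i | i.2 ≠ none} k p) : Down p :=
  ⟨h.down_aux, fun a a' b' ha hb => (h.symm hγ).down_aux a' a b' ha hb⟩

lemma ty_congr {i : I} (h : rt ρ i = rt ρ' i) (l : List (Bool × ℕ)) : ty ρ i l = ty ρ' i l := by
  induction l with
  | nil => exact h
  | cons x l ih => simp only [ty, ih]

/-- the starting relation -/
def base (γ : I ≃ I) (F : Set I) (a a' : Node) : Prop :=
  (a.l = [] ∧ a' = ⟨γ a.t, []⟩) ∨ (a.t ∈ F ∧ a' = a)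

lemma sys_base (h1 : ∀ i ∈ F, γ i = i ∧ rt ρ i = rt ρ' i)
    (h2 : ∀ i, rt ρ i = rt ρ' (γ i) ∨ k < i.1) : Sys ρ ρ' γ F k (base γ F) := by
  have key : ∀ {a a'}, base γ F a a' → a' = ⟨γ a.t, a.l⟩ := by
    rintro a a' (⟨e, rfl⟩ | ⟨e, rfl⟩)
    · rw [e]
    · rw [(h1 _ e).1]
  refine ⟨fun hp => by rw [key hp]; exact ⟨rfl, rfl⟩, fun i => Or.inl ⟨rfl, rfl⟩,
    fun a ha => Or.inr ⟨ha, rfl⟩, ⟨0, ?_⟩, ?_, ?_, ?_⟩
  · rintro a a' (⟨e, rfl⟩ | ⟨e, rfl⟩)
    · exact Or.inr ⟨by simp [Bd, e], by simp [Bd]⟩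
    · exact Or.inl ⟨rfl, e⟩
  · rintro i i' x x' l l' (⟨e, -⟩ | ⟨e, e'⟩)
    · simp at e
    · simp only [Node.mk.injEq, List.cons.injEq] at e'
      exact Or.inr ⟨e, by rw [e'.1, e'.2.2]⟩
  · intro a a' b b' ha hb
    rw [key ha, key hb, Node.ext_iff]
    simp
  · rintro a a' (⟨e, rfl⟩ | ⟨e, rfl⟩)
    · simpa [e, ty] using h2 a.t
    · exact Or.inl (ty_congr (h1 _ e).2 _)

end Pool.Agent.MP_352f7f_lc.H82
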